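import Pool.Agent.Run7.h802.Rz20

/-!
MP_b525bf_ag: resolution of singularities, in all dimensions and in all characteristics `p > 0`, of
the projective varieties `X` whose normalization is the quotient `(C 0 × ... × C n) / G` of a product
of smooth projective curves by a finite group `G` which acts on each of the curves, and of the open
subsets of these varieties. Conditions: the fixed points of the elements of `G` on the product are
isolated, and at each point of the product either the order of the inertia group is not divisible by
`p ^ 2`, or the wild inertia acts by translations.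

The variety `X = Proj S` is given by the following data: a homogeneous generic point `ξ : S → F`,
where `F` is the field of invariants of `G` in the function field `L` of the product, and linear
forms `b I`, for the subsets `I` of the set of the indices of the curves, without common zeros, whose
values at the generic point are `ξ (b ∅)` times the product of the `s i ^ m i`, `i ∈ I`, where
`s i` is a `G`-invariant separating function on `C i`. In other words, `X` has a finite morphism to
`(ℙ¹) ^ (n + 1)`, in its Segre embedding, whose coordinates are the functions `s i ^ m i` on the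
curves `C i / G` (each invariant function which is not constant is a power of an invariant
separating function, as `k` is perfect). The quotient of the product of the curves has such finite
morphisms.

Examples. Let `q` be a power of `p`.

* `G = SL 2 (F q)` acting diagonally on the powers of the projective curve
  `x ^ q * y - x * y ^ q = z ^ (q + 1)`. At the points with `z = 0` the inertia groups are the Borel
  subgroups, semidirect products of `(ℤ / p) ^ r`, `q = p ^ r`, and of a cyclic group of order
  `q - 1`; at the point `(1 : 0 : 0)` the group `(ℤ / p) ^ r` acts by translations of `x / y`, which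
  has a pole of order `q + 1`.
* `G = F q` acting diagonally on the product of the smooth projective models of the curves
  `z ^ q - z = f (x)`, where `f` are polynomials of degrees prime to `p`.
* All faithful actions of groups of order not divisible by `p ^ 2` on each of the curves. This
  includes all dihedral groups of order `2 * p`, and all Frobenius groups of order `p * d`, `p ∤ d`.

The proof. The product is blown up at the points with nontrivial inertia groups with weights given by
the ramification of the wild inertia; on the extended Rees algebra the inertia groups at the points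
outside of the vertex are trivial, of order `p` with principal fixed point ideals, or they act by
translations of a function; in all cases the ring of invariants is regular outside of the vertex
(`Run7.h802.Rz.ch_aff`). The graded rings for the `2 ^ (n + 1)` affine charts of the product given by
the `s i` and `1 / s i` glue (`glob_atlas`), the atlas of quotients by the multiplicative group has a
smooth projective model by the library of the starting files, and the model dominates `X`, because
the quotients of the `b I` are regular functions on the charts.

The affine case, with conditions only at the points of affine curves, is the theorem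
CurveProductQuotients on the problem MP_19ffc6_ag (this run). helper802, with the library of the
starting files: helpers 223, 279, 824, 864, 918, 920, 639 (weighted blowups, quotients), 98 and 762
(projective varieties), and others.
-/

set_option autoImplicit false

open AlgebraicGeometry CategoryTheory Pool.Agent.W558

namespace Pool.Agent.Results.MP_b525bf_ag.ProjectiveProductQuotients

/-- The valuation ring `V` of the function field `E` of a curve over `k` is the local ring of a
closed point of the smooth projective curve: it contains the constants, and it is not the field. -/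
def IsPoint (k : Type) {E : Type} [Field k] [Field E] [Algebra k E] (V : ValuationSubring E) :
    Prop :=
  (∀ c : k, algebraMap k E c ∈ V) ∧ V ≠ ⊤

/-- The automorphism `g` is in the inertia group of the points of the product of the curves over the
points `V i` of the curves: for all `i` it maps the local ring `V i` to itself and acts trivially on
its residue field. -/
def IsInertial {k L : Type} [Field k] [Field L] [Algebra k L] {n : ℕ}
    (E : Fin (n + 1) → IntermediateField k L) (V : ∀ i, ValuationSubring (E i))
    (g : L ≃ₐ[k] L) : Prop :=
  ∀ i, ∀ x ∈ V i, ∃ y : E i, (y : L) = g x - x ∧ (V i).valuation y < 1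

/-- The element `t` generates the maximal ideal of the valuation ring `V`. -/
def IsUniformizer {E : Type} [Field E] (V : ValuationSubring E) (t : E) : Prop :=
  t ≠ 0 ∧ V.valuation t < 1 ∧ ∀ x, V.valuation x < 1 → V.valuation x ≤ V.valuation t

/-- The wild inertia group of `G` at the points `V i` acts by translations: there are functions
`z i` on the curves with poles of orders `m i` prime to `p` at the points `V i`, such that for every
`g` in the inertia group whose order is a power of `p` there is a constant `c` with
`g (z i) = z i + c` for all `i`. -/
def Translations (p : ℕ) {k L : Type} [Field k] [Field L] [Algebra k L] {n : ℕ}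
    (E : Fin (n + 1) → IntermediateField k L) (G : Subgroup (L ≃ₐ[k] L))
    (V : ∀ i, ValuationSubring (E i)) : Prop :=
  ∃ (z t : ∀ i, E i) (m : Fin (n + 1) → ℕ),
    (∀ i, ¬ p ∣ m i ∧ IsUniformizer (V i) (t i) ∧
      (V i).valuation (z i)⁻¹ = (V i).valuation (t i) ^ m i) ∧
    ∀ g ∈ G, IsInertial E V g → (∃ a : ℕ, g ^ p ^ a = 1) →
      ∃ c : k, ∀ i, g (z i) = z i + algebraMap k L c

/-- `L` is the function field of the product over `k` of the curves with the function fields
`E 0, ..., E n`, and the finite group `G` of automorphisms of `L` acts on each of the curves. If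
`g ≠ 1` in `G` is in the inertia group of a point of the product, then it is not the identity on any
of the curves (so the fixed points of `g` are isolated), and at each point of the product the order
of the inertia group is not divisible by `p ^ 2`, or the wild inertia group acts by translations. -/
structure IsCurveProduct (p : ℕ) {k L : Type} [Field k] [Field L] [Algebra k L] {n : ℕ}
    (E : Fin (n + 1) → IntermediateField k L) (G : Subgroup (L ≃ₐ[k] L)) : Prop where
  finiteType : ∀ i, Algebra.EssFiniteType k (E i)
  dimension : ∀ i, Algebra.trdeg k (E i) = 1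
  disjoint : ∀ (S : Finset (Fin (n + 1))) (i : Fin (n + 1)), i ∉ S →
    (⨆ j ∈ S, (E j).toSubalgebra).LinearDisjoint (E i).toSubalgebra
  generate : ⨆ i, E i = ⊤
  finite : Finite G
  stable : ∀ g ∈ G, ∀ i, ∀ x ∈ E i, g x ∈ E i
  isolated : ∀ V : ∀ i, ValuationSubring (E i), (∀ i, IsPoint k (V i)) →
    ∀ g ∈ G, g ≠ 1 → IsInertial E V g → ∀ i, ∃ x ∈ E i, g x ≠ x
  wild : ∀ V : ∀ i, ValuationSubring (E i), (∀ i, IsPoint k (V i)) →
    ¬ p ^ 2 ∣ Nat.card {g : L ≃ₐ[k] L // g ∈ G ∧ IsInertial E V g} ∨ Translations p E G V

/-- The homomorphism `ξ` is a homogeneous generic point of the projective variety `Proj S` over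
`k`, where `S = ⨁ 𝒜 t`, and `F` is the function field: `ξ` is injective on the homogeneous parts of
`S`, and the elements of `F` are the quotients of the values at `ξ` of homogeneous elements of `S`
of the same degree. -/
structure IsGenericPoint {k S F : Type} [Field k] [CommRing S] [Algebra k S]
    (𝒜 : ℕ → Submodule k S) [Field F] [Algebra k F] (ξ : S →ₐ[k] F) : Prop where
  injective : ∀ n, ∀ s ∈ 𝒜 n, ξ s = 0 → s = 0
  fractions : ∀ z : F, ∃ n, ∃ s ∈ 𝒜 n, ∃ t ∈ 𝒜 n, ξ t ≠ 0 ∧ z = ξ s / ξ t

open Run7.h802.Cv Run7.h802.Rz in
/-- Let `k` be a perfect field of characteristic `p`. Let `L` be the function field of a product of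
curves over `k` with an action of the finite group `G` which satisfies the conditions of
`IsCurveProduct`, and `F` the field of invariants of `G`. Let `X = Proj S` be a projective variety
over `k` with function field `F`, where `S` is a graded domain generated over `k` by its finite
dimensional part `𝒜 1` of degree one. Let `s i` be `G`-invariant separating functions on the curves,
and `b I`, for the subsets `I` of `{0, ..., n}`, elements of `𝒜 1` without common zeros on `X` (all
forms of some degree `d + 1` are in the ideal generated by them), whose value at the homogeneous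
generic point is the value of `b ∅` times the product of the `s i ^ m i`, `i ∈ I`. (The functions
`s i ^ m i` define a finite morphism from `X` to `(ℙ¹) ^ (n + 1)`. So the normalization of `X` is the
quotient by `G` of the product of the smooth projective curves.) Then each nonempty open subscheme
`U` of `X` has a resolution of singularities. -/
theorem result (p : ℕ) [Fact p.Prime] (k : Type) [Field k] [PerfectField k] [CharP k p]
    (L : Type) [Field L] [Algebra k L] (n : ℕ) (E : Fin (n + 1) → IntermediateField k L)
    (G : Subgroup (L ≃ₐ[k] L)) (hG : IsCurveProduct p E G)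
    (F : IntermediateField k L) (hF : ∀ x, x ∈ F ↔ ∀ g ∈ G, g x = x)
    (S : Type) [CommRing S] [IsDomain S] [Algebra k S] (𝒜 : ℕ → Submodule k S) [GradedAlgebra 𝒜]
    (hS : Algebra.adjoin k (𝒜 1 : Set S) = ⊤) (hfg : (𝒜 1).FG)
    (ξ : S →ₐ[k] F) (hξ : IsGenericPoint 𝒜 ξ)
    (s : ∀ i, E i) (hs : ∀ i, Algebra.IsSeparable (IntermediateField.adjoin k {s i}) (E i))
    (m : Fin (n + 1) → ℕ)
    (b : Finset (Fin (n + 1)) → S) (hb : ∀ I, b I ∈ 𝒜 1) (hb0 : b ∅ ≠ 0)
    (hb' : ∃ d : ℕ, ∀ a ∈ 𝒜 (d + 1), a ∈ Ideal.span (Set.range b))
    (hbs : ∀ I, (ξ (b I) : L) = ξ (b ∅) * ∏ i ∈ I, (s i : L) ^ m i)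
    (hfix : ∀ g ∈ G, ∀ i, g (s i) = s i)
    (U : (Proj 𝒜).Opens) (hU : (U : Set (Proj 𝒜)).Nonempty) :
    IsResolvableVariety (k := k) (X := U.toScheme)
      (U.ι ≫ Proj.toSpecZero 𝒜 ≫ Spec.map (CommRingCat.ofHom (algebraMap k (𝒜 0)))) := by
  classical
  have hfin := hG.finite
  have hft := hG.finiteType
  -- the actions on the curves
  let ρ : ∀ i, G →* (E i ≃ₐ[k] E i) := fun i =>
    { toFun := fun g =>
        { toFun := fun x => ⟨(g : L ≃ₐ[k] L) x, hG.stable g g.2 i x x.2⟩
          invFun := fun x => ⟨((g⁻¹ : G) : L ≃ₐ[k] L) x, hG.stable (g⁻¹ : G) (g⁻¹ : G).2 i x x.2⟩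
          left_inv := fun x => by
            apply Subtype.ext
            change ((g⁻¹ : G) : L ≃ₐ[k] L) ((g : L ≃ₐ[k] L) x) = x
            rw [← AlgEquiv.mul_apply, ← Subgroup.coe_mul, inv_mul_cancel]
            rfl
          right_inv := fun x => by
            apply Subtype.ext
            change (g : L ≃ₐ[k] L) (((g⁻¹ : G) : L ≃ₐ[k] L) x) = x
            rw [← AlgEquiv.mul_apply, ← Subgroup.coe_mul, mul_inv_cancel]
            rfl
          map_mul' := fun x y => Subtype.ext (map_mul (g : L ≃ₐ[k] L) (x : L) (y : L))
          map_add' := fun x y => Subtype.ext (map_add (g : L ≃ₐ[k] L) (x : L) (y : L))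
          commutes' := fun c => Subtype.ext ((g : L ≃ₐ[k] L).commutes c) }
      map_one' := rfl
      map_mul' := fun g h => rfl }
  have hρ : ∀ (g : G) i (x : E i), ((ρ i g x : E i) : L) = (g : L ≃ₐ[k] L) x := fun g i x => rfl
  have hin : ∀ (V : ∀ i, ValuationSubring (E i)) (g : G), g ∈ Run7.h802.Cv.inr ρ V ↔
      IsInertial E V g := by
    intro V g
    rw [mem_inr]
    constructor
    · intro h i x hx
      exact ⟨ρ i g x - x, rfl, h i x hx⟩
    · intro h i x hx
      obtain ⟨y, hy, hyV⟩ := h i x hx
      have h1 : y = ρ i g x - x := Subtype.ext hy
      rwa [← h1]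
  have hpt : ∀ i (V : ValuationSubring (E i)), Pt k V → IsPoint k V :=
    fun i V h => ⟨h.const, h.ne⟩
  have hsep : ∀ i, Pool.Agent.H920R2.SepEl k (s i) := by
    intro i
    refine ⟨fun halg => ?_, hs i⟩
    have h1 : Algebra.IsAlgebraic k (IntermediateField.adjoin k {s i}) :=
      IntermediateField.isAlgebraic_adjoin_simple halg.isIntegral
    have h2 : Algebra.IsAlgebraic (IntermediateField.adjoin k {s i}) (E i) :=
      (hs i).isAlgebraic
    have h3 : Algebra.IsAlgebraic k (E i) :=
      Algebra.IsAlgebraic.trans k (IntermediateField.adjoin k {s i}) (E i)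
    have h4 : Algebra.trdeg k (E i) = 0 := trdeg_eq_zero_iff.2 h3
    rw [hG.dimension i] at h4
    exact one_ne_zero h4
  refine proj_main (e := fun i => (E i).val) (ρ := ρ) (G := G) p F.val hsep
    (fun i g => Subtype.ext (hfix g g.2 i)) ?_ ?_ G.subtype (fun g i x => rfl) ?_ ?_ ?_ 𝒜 hS hfg ξ
    hξ.injective hξ.fractions m b hb hb0 hb' hbs U hU
  · intro S i hi
    have h1 := hG.disjoint S i hi
    simp only [IntermediateField.range_val]
    exact h1
  · simp only [IntermediateField.fieldRange_val]
    exact hG.generate
  · intro x
    constructor
    · intro h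
      exact ⟨⟨x, (hF x).2 fun g hg => h ⟨g, hg⟩⟩, rfl⟩
    · rintro ⟨y, rfl⟩ g
      exact (hF _).1 y.2 g g.2
  · intro V hV g hg hg1 i h1
    have hg1' : (g : L ≃ₐ[k] L) ≠ 1 := fun h => hg1 (Subtype.ext h)
    obtain ⟨x, hx, hgx⟩ := hG.isolated V (fun i => hpt i _ (hV i)) g g.2 hg1' ((hin V g).1 hg) i
    apply hgx
    have h2 : ρ i g ⟨x, hx⟩ = ⟨x, hx⟩ := by rw [h1]; rfl
    exact congrArg Subtype.val h2
  · intro V hV
    rcases hG.wild V fun i => hpt i _ (hV i) with h1 | ⟨z, t, m', h1, h2⟩
    · left
      have h2 : Nat.card (Run7.h802.Cv.inr ρ V) =
          Nat.card {g : L ≃ₐ[k] L // g ∈ G ∧ IsInertial E V g} := by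
        refine Nat.card_congr
          { toFun := fun g => ⟨(g : G), (g : G).2, (hin V g).1 g.2⟩
            invFun := fun g => ⟨⟨g, g.2.1⟩, (hin V ⟨g, g.2.1⟩).2 g.2.2⟩
            left_inv := fun g => rfl
            right_inv := fun g => rfl }
      rwa [h2]
    · right
      refine ⟨z, m', fun i => (h1 i).1, fun i => ⟨t i, (h1 i).2.1, (h1 i).2.2⟩, ?_⟩
      rintro g hg ⟨a, ha⟩
      obtain ⟨c, hc⟩ := h2 g g.2 ((hin V g).1 hg) ⟨a, by
        have h3 := congrArg (fun x : G => (x : L ≃ₐ[k] L)) ha
        exact h3⟩
      exact ⟨c, fun i => Subtype.ext (hc i)⟩

end Pool.Agent.Results.MP_b525bf_ag.ProjectiveProductQuotients
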