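import Pool.Agent.Run7.h275.RB23
import Pool.Agent.Run7.h216.RB.Pts
import Pool.Agent.Run7.h882.RB.NZF

/-!
# One tower of projective modifications to which all arcs lift at smooth points with normal crossings

Let `X` be an integral projective variety over a perfect field `k` (for example an algebraically closed field of characteristic
`p`), of any dimension and with arbitrary singularities, and let `D` be a closed subscheme of `X`.  We construct one tower of
blowings-up `X = X_0 ← X_1 ← X_2 ← …` such that every arc of `X`, a morphism `γ : Spec R → X` for a valuation ring `R`, for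
which the pullback of the product of the Jacobian ideal of `X` and of the ideal of `D` is not contained in `𝔪_R ^ (e + 1)`, lifts
to `X_e` in such a way that at the image of the closed point the variety `X_e` is smooth and the inverse image of `D` is a
divisor with normal crossings (or empty).

The schemes are described in the function field: an integral projective scheme is `Proj k[M]` for a finitely generated submodule
`M ⊆ F` (the homogeneous coordinates), with the charts `Spec k[m / w : m ∈ M]`, `w ∈ M`, `w ≠ 0`, and its points correspond to their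
local rings in `F`, which are the local rings at the centres of the valuation rings of `F` containing `k`.  A closed subscheme
is given by a module of homogeneous elements of some degree `c`, contained in `M ^ c`.  If `C ⊆ M ^ κ` is finitely generated and
`C ≠ 0`, then `Proj k[M C]` is the blowing-up of `Proj k[M]` in the closed subscheme with the equations `C`.
-/

set_option autoImplicit false

namespace Pool.Agent.Results.MP_b525bf_ag.ProjectiveTowerForAllArcs

open IsLocalRing

section definitions

variable (k : Type) {F : Type} [CommRing k] [Field F] [Algebra k F]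

/-- The coordinate ring `k[m / w : m ∈ M]` of the chart `w ≠ 0` of the projective scheme `Proj k[M]` with the
homogeneous coordinates `M ⊆ F`. -/
def chart (M : Submodule k F) (w : F) : Subring F :=
  (Algebra.adjoin k {z | ∃ m ∈ M, z = m / w}).toSubring

/-- The local ring of `Spec B` at the centre of the valuation ring `V`: the fractions of elements of `B` whose
denominators are units of `V`. -/
def centreRing (V : ValuationSubring F) (B : Subring F) : Subring F where
  carrier := {x | ∃ a ∈ B, ∃ b ∈ B, b ≠ 0 ∧ b⁻¹ ∈ V ∧ x = a * b⁻¹}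
  mul_mem' := (Pool.Agent.W418.LU2.lo V.toSubring B).mul_mem'
  one_mem' := (Pool.Agent.W418.LU2.lo V.toSubring B).one_mem'
  add_mem' := (Pool.Agent.W418.LU2.lo V.toSubring B).add_mem'
  zero_mem' := (Pool.Agent.W418.LU2.lo V.toSubring B).zero_mem'
  neg_mem' := (Pool.Agent.W418.LU2.lo V.toSubring B).neg_mem'

/-- The valuation ring `V` of the function field contains the base ring. -/
def Contains (V : ValuationSubring F) : Prop := ∀ o : k, algebraMap k F o ∈ V

variable {k} in
/-- `Q` is the local ring of `Proj k[M]` at the centre of the valuation ring `V`, which lies in the chart `w ≠ 0`. -/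
def IsLocalRingAt (V : ValuationSubring F) (M : Submodule k F) (Q : Subring F) : Prop :=
  ∃ w ∈ M, w ≠ 0 ∧ (∀ m ∈ M, m / w ∈ V) ∧ centreRing V (chart k M w) = Q

variable {k} in
/-- The ideal of the inverse image of `D` in the local ring `Q` of a scheme over `Proj k[M₀]`, where `D` is defined by
the homogeneous elements `N` of degree `c`: it is generated by the elements `g / w ^ c`, where `g ∈ N` and `w` is a
homogeneous coordinate which does not vanish at the point. -/
def idealOf (M₀ N : Submodule k F) (c : ℕ) (Q : Subring F) : Ideal Q :=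
  Ideal.span {b : Q | ∃ w ∈ M₀, w ≠ 0 ∧ (∀ m ∈ M₀, m / w ∈ Q) ∧ ∃ g ∈ N, (b : F) = g / w ^ c}

variable {k} in
/-- The local ring `Q` is regular and the inverse image of `D` is a divisor with normal crossings, or empty: its ideal is
generated by a monomial in a regular system of parameters. -/
def HasNormalCrossings (M₀ N : Submodule k F) (c : ℕ) (Q : Subring F) : Prop :=
  ∃ (_ : IsRegularLocalRing Q) (r : ℕ) (x : Fin r → Q) (α : Fin r → ℕ),
    Ideal.span (Set.range x) = maximalIdeal Q ∧ ringKrullDim Q = r ∧
      idealOf M₀ N c Q = Ideal.span {∏ i, x i ^ α i}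

/-- `δ` is an element of the Jacobian ideal of the chart `i`: for some polynomials `f l` over `k` which vanish at the
point `x = (y j / y i)_j` and generate the ideal of `x` up to a factor which does not vanish at `x`, and some
derivations `D l` of the polynomial ring (for example partial derivatives), `δ` is the determinant of the matrix
`(D l (f k)) (x)`. -/
def IsJacobianMinor {n : ℕ} (y : Fin n → F) (i : Fin n) (δ : F) : Prop :=
  ∃ (r : ℕ) (f : Fin r → MvPolynomial (Fin n) k)
    (D : Fin r → Derivation ℤ (MvPolynomial (Fin n) k) (MvPolynomial (Fin n) k)),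
    (∀ k, MvPolynomial.aeval (fun j => y j / y i) (f k) = 0) ∧
    (∀ s : MvPolynomial (Fin n) k, MvPolynomial.aeval (fun j => y j / y i) s = 0 →
      ∃ t, MvPolynomial.aeval (fun j => y j / y i) t ≠ 0 ∧ t * s ∈ Ideal.span (Set.range f)) ∧
    δ = (Matrix.of fun k l => MvPolynomial.aeval (fun j => y j / y i) (D l (f k))).det

end definitions

open Pool.Agent.W418.LU2 Pool.Agent.Run7.h275.RB Pool.Agent.Run7.h275.RL

/-- Orders with respect to powers of the maximal ideal. -/
lemma ordLe_of_pow {F : Type} [Field F] {V : ValuationSubring F} {x : V} {e : ℕ}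
    (h : x ∉ maximalIdeal V ^ (e + 1)) : OrdLe V (x : F) e := by
  classical
  intro z hz
  by_contra hcon
  rw [not_lt] at hcon
  apply h
  have hzV : ∀ i, i < e + 1 → z i ∈ V := fun i hi => (V.valuation_le_one_iff _).1 (hz i hi).le
  let m : ℕ → V := fun i => if hi : i < e + 1 then ⟨z i, hzV i hi⟩ else 1
  have hm : ∀ i, i < e + 1 → (m i : F) = z i := fun i hi => by
    simp only [m, dif_pos hi]
  have hmm : ∀ i ∈ Finset.range (e + 1), m i ∈ maximalIdeal V := by
    intro i hi
    have hi' := Finset.mem_range.1 hi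
    refine (V.valuation_lt_one_iff (m i)).2 ?_
    rw [hm i hi']
    exact hz i hi'
  have hprod : ∏ i ∈ Finset.range (e + 1), m i ∈ maximalIdeal V ^ (e + 1) := by
    have := Ideal.prod_mem_prod (s := Finset.range (e + 1)) (I := fun _ => maximalIdeal V) (x := m) hmm
    simpa using this
  have hcoe : ((∏ i ∈ Finset.range (e + 1), m i : V) : F) = ∏ i ∈ Finset.range (e + 1), z i := by
    have h1 : ((∏ i ∈ Finset.range (e + 1), m i : V) : F) = ∏ i ∈ Finset.range (e + 1), (m i : F) :=
      map_prod V.subtype _ _
    rw [h1]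
    exact Finset.prod_congr rfl fun i hi => hm i (Finset.mem_range.1 hi)
  rw [V.valuation_le_iff] at hcon
  obtain ⟨s, hs⟩ := hcon
  have h2 : s * ∏ i ∈ Finset.range (e + 1), m i = x := by
    apply Subtype.ext
    change (s : F) * ((∏ i ∈ Finset.range (e + 1), m i : V) : F) = (x : F)
    rw [hcoe]
    exact hs
  rw [← h2]
  exact Ideal.mul_mem_left _ _ hprod

/-- **The tower.**  Let `k` be a perfect field, let `F` be a field over `k`, let `X = Proj k[y_1, …, y_n]` be the projective
variety with the homogeneous coordinates `y_i ∈ F^*`, and let `D` be the closed subscheme of `X` with the equations `N` of degree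
`c`.  There are finitely generated modules `M e`, `C e` with the following properties, where `X_e = Proj k[M e]`.

* `X_0 = X`, and `X_(e+1)` is the blowing-up of `X_e` in the subscheme with the equations `C e` of degree `κ e`; the centre of this
blowing-up does not contain the points at which `X_e` is regular and the inverse image of `D` is a divisor with normal
crossings (there some element of `C e` is a unit), and so the local rings of these points are not changed.
* The Jacobian ideal is not zero in any chart.
* Let `R` be a valuation ring of any field `L`, and let `γ` be a point of `X` with values in `R` (in the chart `i`), such that for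
some element `δ` of the Jacobian ideal and some local equation `a` of `D` the image of `δ a` is outside of the power `𝔪 ^ (e + 1)` of
the maximal ideal of `R`.  Then for all `j ≥ e` there is a point of `X_j` with the local ring `Q`, at which `X_j` is regular
(equivalently, smooth over `k`) and the inverse image of `D` is a divisor with normal crossings, and a lift `γ' : Q → R` of `γ` which
is a local homomorphism. -/
theorem result (k F : Type) [Field k] [PerfectField k] [Field F] [Algebra k F] (n : ℕ) (hn : 0 < n) (y : Fin n → F)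
    (hy : ∀ i, y i ≠ 0) (hF : ∀ i, ∀ z : F, ∃ a ∈ chart k (Submodule.span k (Set.range y)) (y i),
      ∃ b ∈ chart k (Submodule.span k (Set.range y)) (y i), b ≠ 0 ∧ z = a / b) (c : ℕ) (N : Submodule k F)
    (hN : N ≤ Submodule.span k (Set.range y) ^ c) :
    ∃ (M C : ℕ → Submodule k F) (κ : ℕ → ℕ), M 0 = Submodule.span k (Set.range y) ∧
      (∀ e, (C e).FG ∧ C e ≠ ⊥ ∧ C e ≤ M e ^ κ e ∧ M (e + 1) = M e * C e) ∧
      (∀ (e : ℕ) (V : ValuationSubring F), Contains k V → ∀ Q, IsLocalRingAt V (M e) Q →
        HasNormalCrossings (Submodule.span k (Set.range y)) N c Q →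
        (∃ g ∈ C e, ∀ m ∈ M e, V.valuation (m ^ κ e) ≤ V.valuation g) ∧ IsLocalRingAt V (M (e + 1)) Q) ∧
      (∀ i, ∃ δ, δ ≠ 0 ∧ IsJacobianMinor k y i δ) ∧
      ∀ (L : Type) [Field L] (R : ValuationSubring L) (i : Fin n)
        (γ : chart k (Submodule.span k (Set.range y)) (y i) →+* R)
        (δ a : chart k (Submodule.span k (Set.range y)) (y i)), IsJacobianMinor k y i (δ : F) →
        (∃ g ∈ N, (a : F) = g / y i ^ c) →
        ∀ e : ℕ, γ (δ * a) ∉ maximalIdeal R ^ (e + 1) → ∀ j, e ≤ j →
        ∃ (V : ValuationSubring F) (Q : Subring F), Contains k V ∧ IsLocalRingAt V (M j) Q ∧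
          HasNormalCrossings (Submodule.span k (Set.range y)) N c Q ∧
          ∃ (h : chart k (Submodule.span k (Set.range y)) (y i) ≤ Q) (γ' : Q →+* R),
            (∀ b : chart k (Submodule.span k (Set.range y)) (y i), γ' ⟨b, h b.2⟩ = γ b) ∧
              ∀ b : Q, IsUnit (γ' b) → IsUnit b := by
  obtain ⟨M, C, κ, h0, h1, h2, h3, h4⟩ := t_TOWER (O := k) (F := F) (j0_field k) hy hn hN
  set M₀ : Submodule k F := Submodule.span k (Set.range y) with hM₀
  have hyM : ∀ i, y i ∈ M₀ := fun i => Submodule.subset_span ⟨i, rfl⟩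
  have hMM : Md M₀ := ⟨Submodule.fg_span (Set.finite_range y), y ⟨0, hn⟩, hyM _, hy _⟩
  have hmd : ∀ e, Md (M e) := by
    intro e
    obtain ⟨D, hD, hMD⟩ := h2 e
    rw [hMD]
    exact (Pool.Agent.Run7.h915.RB.t_PER k F _ D hMM hD).1
  have hT : TwrP (NCr M₀ N c) M := by
    refine ⟨hmd, ?_, ?_⟩
    · intro e V hV Q hQ hr
      obtain ⟨g, hg, hgV⟩ := h3 e V hV ⟨Q, hQ, hr⟩
      rw [(h1 e).2.2]
      exact t_ISO k F (M e) (C e) (κ e) (hmd e) (h1 e).1 (h1 e).2.1 V hV ⟨g, hg, hgV⟩ Q hQ
    · intro e V hV hr
      obtain ⟨D, hD, hMD⟩ := h2 e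
      have h5 : Sep (M e) V {T | Cn k T ∧ ¬ NCm M₀ N c (M e) T} := by
        have hr' : NCm M₀ N c (M e) V := hr
        rw [hMD] at hr' ⊢
        exact ncm_open Pool.Agent.Run7.h781.RB.NCO (j0_field k) hMM hD hN hV hr'
      exact h5
  refine ⟨M, C, κ, h0, ?_, ?_, fun i => Pool.Agent.Run7.h882.RB.t_NZF k F n y i, ?_⟩
  · intro e
    obtain ⟨h5, h6, h7⟩ := h1 e
    refine ⟨h5.1, ?_, h6, h7⟩
    intro hbot
    obtain ⟨g, hg, hg0⟩ := h5.2
    rw [hbot] at hg
    exact hg0 ((Submodule.mem_bot k).1 hg)
  · intro e V hV Q hQ hnc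
    have hQ' : LR V (M e) Q := hQ
    obtain ⟨g, hg, hgV⟩ := h3 e V hV ⟨Q, hQ', hnc⟩
    refine ⟨⟨g, hg, fun m hm => ?_⟩, hT.iso e V hV Q hQ' hnc⟩
    by_contra hcon
    rw [not_le, map_pow] at hcon
    exact hgV ⟨m, hm, hcon⟩
  · intro L _ R i γ δ a hδ ha e hγ j hj
    obtain ⟨g, hg, hag⟩ := ha
    let A : Subring F := (Pool.Agent.H918R2.Quad.chart k M₀ (y i)).toSubring
    let π : A →+* L := (R.subtype : R →+* L).comp γ
    have hπ : ∀ b, π b ∈ R := fun b => (γ b).2
    have hord : OrdLe R (π (δ * a)) j := OrdLe.mono (ordLe_of_pow hγ) hj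
    have hπ0 : π (δ * a) ≠ 0 := hord.ne
    have hAc : ∀ V : ValuationSubring F, A ≤ V.toSubring → Cn k V ∧ (∀ j, y j / y i ∈ V) := by
      intro V hAV
      exact ⟨fun o => hAV (Subalgebra.algebraMap_mem (Pool.Agent.H918R2.Quad.chart k M₀ (y i)) o),
        fun j => hAV (Algebra.subset_adjoin ⟨y j, hyM j, rfl⟩)⟩
    have hac : ∀ V : ValuationSubring F, A ≤ V.toSubring → Ac k y N c V i ((δ * a : A) : F) := by
      intro V hAV
      refine ⟨(hAc V hAV).2, δ, hδ, g, hg, ?_⟩
      change (δ : F) * (a : F) = δ * (g / y i ^ c)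
      rw [hag]
    have hLR0 : ∀ V : ValuationSubring F, A ≤ V.toSubring → LR V (M 0) (lo V.toSubring A) := by
      intro V hAV
      rw [h0]
      exact ⟨_, hyM _, hy _, max_span (hAc V hAV).1 (hAc V hAV).2, rfl⟩
    have hnc0 : ∀ V : ValuationSubring F, A ≤ V.toSubring → ¬ V.valuation ((δ * a : A) : F) < 1 →
        NCr M₀ N c (lo V.toSubring A) := by
      intro V hAV hu
      obtain ⟨Q, hQ, hnc⟩ := h4 0 V (hAc V hAV).1 i _ (hac V hAV) (OrdLe.of_unit hu 0)
      rw [LR.unique (hAc V hAV).1 hQ (hLR0 V hAV)] at hnc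
      exact hnc
    obtain ⟨W, V, hVW, hAV, hW, hordV, hβ⟩ := Pool.Agent.Run7.h216.RB.t_PTS F L A (hF i) π R hπ (by
      intro V₀ hV₀ hc
      exact (hnc0 V₀ hV₀ fun h => hπ0 ((hc (δ * a)).1 h)).choose)
    have hVC : Cn k V := (hAc V hAV).1
    obtain ⟨Q, hQ, hnc⟩ := h4 j V hVC i _ (hac V hAV) (hordV (δ * a) j hord)
    have hAW : A ≤ W.toSubring := hAV.trans hVW
    have hncW : NCr M₀ N c (lo W.toSubring A) := hnc0 W hAW fun h => hπ0 ((hW (δ * a)).1 h)
    obtain ⟨w, hwM, hw0, hwV, rfl⟩ := id hQ
    have hLRW : LR W (M j) (lo W.toSubring (Pool.Agent.H918R2.Quad.chart k (M j) w).toSubring) :=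
      ⟨w, hwM, hw0, fun m hm => hVW (hwV m hm), rfl⟩
    have hloW : lo W.toSubring (Pool.Agent.H918R2.Quad.chart k (M j) w).toSubring = lo W.toSubring A :=
      LR.unique (hAc W hAW).1 hLRW (hT.iso_le (Nat.zero_le j) (hAc W hAW).1 (hLR0 W hAW) hncW)
    have hchV : (Pool.Agent.H918R2.Quad.chart k (M j) w).toSubring ≤ V.toSubring := chart_le_V hVC hwV
    obtain ⟨β, hβu, hβ2⟩ := hβ (lo V.toSubring (Pool.Agent.H918R2.Quad.chart k (M j) w).toSubring) (lo_le hchV)
      (ic_lo hchV) (by
        rw [← hloW]
        rintro x ⟨a', ha', b', hb', hb0, hbi, rfl⟩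
        exact ⟨a', ha', b', hb', hb0, hVW hbi, rfl⟩)
    -- the local ring contains the chart
    have hAQ : A ≤ lo V.toSubring (Pool.Agent.H918R2.Quad.chart k (M j) w).toSubring := by
      obtain ⟨D, hD, hMD⟩ := h2 j
      obtain ⟨d₀, h5, h6, h7⟩ := exists_wmax hD hVC
      have hmx : ∀ m ∈ M j, m / (y i * d₀) ∈ V := by
        intro m hm
        rw [hMD] at hm
        induction hm using Submodule.mul_induction_on' with
        | mem_mul_mem a ha b hb =>
          rw [mul_div_mul_comm]
          exact V.mul_mem _ _ (max_span hVC (hAc V hAV).2 a ha) (h7 b hb)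
        | add a _ b _ ha hb => rw [add_div]; exact V.add_mem _ _ ha hb
      have hLR' : LR V (M j) (lo V.toSubring (Pool.Agent.H918R2.Quad.chart k (M j) (y i * d₀)).toSubring) :=
        ⟨y i * d₀, by rw [hMD]; exact Submodule.mul_mem_mul (hyM i) h5, mul_ne_zero (hy i) h6, hmx, rfl⟩
      rw [LR.unique hVC hQ hLR']
      have h8 : Pool.Agent.H918R2.Quad.chart k M₀ (y i) ≤ Pool.Agent.H918R2.Quad.chart k (M j) (y i * d₀) :=
        Algebra.adjoin_le (by
          rintro _ ⟨m, hm, rfl⟩
          refine Algebra.subset_adjoin ⟨m * d₀, by rw [hMD]; exact Submodule.mul_mem_mul hm h5, ?_⟩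
          rw [mul_div_mul_right _ _ h6])
      exact fun z hz => le_lo _ _ (h8 hz)
    refine ⟨V, _, hVC, hQ, hnc, hAQ, β, fun b => ?_, hβu⟩
    apply Subtype.ext
    exact hβ2 b _

end Pool.Agent.Results.MP_b525bf_ag.ProjectiveTowerForAllArcs
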