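import Pool.Agent.Run7.h945.TR.Fin
import Pool.Agent.Run7.h945.TR.Special
import Pool.Agent.W558.WD.Plane

/-!
MP_b525bf_ag: resolution of the quotients of `S × A ^ r`, where `S` is an affine surface over a
perfect field of characteristic `p`, by arbitrary finite families of group schemes of order `p`
over `S` which act by translations of the fibres (finite groups of translations
`z ↦ z + v (s)`, commuting vector fields `∑ u j (s) ∂/∂z j`, and the twisted forms of these
actions). Here `r` and the coefficient functions are arbitrary; in particular there are no
conditions on the loci in `S` where the coefficient vectors vanish or become linearly dependent.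

The group scheme `G b` of order `p` over `S = Spec B` with the coordinate ring
`B[θ] / (θ ^ p - b * θ)`, where `θ` is additive, is `ℤ / p` if `b = 1`, `α_p` if `b = 0`, and a
twisted form of `ℤ / p` where `b ≠ 0`. The vector `v` of functions defines the action
`z ↦ z + θ * v` of `G b` on `S × A ^ r`. All homomorphisms from `G b` to the vector group
`A ^ r × S` are of this form, if `B` is a field.

The proof. (1) One group scheme: if `v i` divides all entries of `v` (a pivot), `v j = c j * v i`,
then the ring of invariants is the polynomial ring over `B` in `z i ^ p - b * (v i) ^ (p - 1) * z i`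
and the `z j - c j * z i`, `j ≠ i` (`inv_iff`). (2) The other group schemes of the family act on
this quotient again by translations, with new vectors (`inv_s1`). So, if there are pivots in all
steps, the ring of invariants of the family is a polynomial ring over `B` (`good_rec`). (3) The
functions which occur as entries of vectors in all steps, for all choices of the pivots, form a
finite set `G` of rational functions on `S` (`exists_tree`), and if of any two elements of `G` one
divides the other, then there are pivots in all steps. (4) By log resolution and principalization on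
surfaces there is a smooth surface, proper and birational over `S`, on whose charts the elements
of `G` divide each other (`exists_model`). The quotients of the charts are affine spaces over the
charts and are glued to a resolution of the quotient of `S × A ^ r` (`atl_of_LM`); it is proper,
since the coordinates `z j` are integral over the invariants (`exists_psi`).

helper945; built on the library of the starting files (team of helper558).
-/

set_option autoImplicit false

open AlgebraicGeometry CategoryTheory Pool.Agent.H920R2 Pool.Agent.W558

universe u

namespace Pool.Agent.Results.MP_b525bf_ag.SurfaceTranslations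

/-- The field `E` is the function field of a smooth projective variety over `k`, given by
homogeneous coordinates `H 0, ..., H N` in `E`: the coordinate rings `k[H 0 / H i, ..., H N / H i]`
of the charts are smooth over `k` and have the fraction field `E`. -/
def HasSmoothProjectiveModel (k E : Type u) [Field k] [Field E] [Algebra k E] : Prop :=
  ∃ (N : ℕ) (H : Fin (N + 1) → E), (∀ i, H i ≠ 0) ∧ ∀ i,
    Algebra.Smooth k (Algebra.adjoin k (Set.range fun j => H j / H i)) ∧
    IsFractionRing (Algebra.adjoin k (Set.range fun j => H j / H i)) E

section defs

variable {B : Type u} [CommRing B] {n r : ℕ}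

/-- The homomorphism `f (z) ↦ f (z + θ * v)` from the polynomial ring `B[z]` in `z 1, ..., z r` to
`B[z][θ]`. -/
noncomputable def shift (v : Fin r → B) :
    MvPolynomial (Fin r) B →ₐ[B] Polynomial (MvPolynomial (Fin r) B) :=
  MvPolynomial.aeval fun j => Polynomial.C (MvPolynomial.X j) +
    Polynomial.C (MvPolynomial.C (v j)) * Polynomial.X

/-- The polynomial `f` in `z` over `B` is invariant under the action `z ↦ z + θ * v` of the group
scheme with the coordinate ring `B[θ] / (θ ^ p - b * θ)`: modulo `θ ^ p - b * θ` one has
`f (z + θ * v) = f (z)`. -/
def IsInvariant (p : ℕ) (b : B) (v : Fin r → B) (f : MvPolynomial (Fin r) B) : Prop :=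
  Polynomial.X ^ p - Polynomial.C (MvPolynomial.C b) * Polynomial.X ∣ shift v f - Polynomial.C f

/-- The algebra of the polynomials in `z` over `B` which are invariant under the actions
`z ↦ z + θ * v i` of the group schemes with the coordinate rings `B[θ] / (θ ^ p - b i * θ)`. -/
noncomputable def invariants (k : Type u) [Field k] [Algebra k B] (p : ℕ) (b : Fin n → B)
    (v : Fin n → Fin r → B) : Subalgebra k (MvPolynomial (Fin r) B) where
  carrier := {f | ∀ i, IsInvariant p (b i) (v i) f}
  mul_mem' := fun hf hg i => Pool.Agent.Run7.h945.TR.Inv.mul (hf i) (hg i)
  add_mem' := fun hf hg i => Pool.Agent.Run7.h945.TR.Inv.add (hf i) (hg i)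
  algebraMap_mem' := fun a i =>
    Pool.Agent.Run7.h945.TR.Inv.const p (b i) (v i) (algebraMap k B a)

/-- The quotient of `Spec B × A ^ r` by the group schemes. -/
noncomputable def quot (k : Type u) [Field k] [Algebra k B] (p : ℕ) (b : Fin n → B)
    (v : Fin n → Fin r → B) : Scheme.{u} :=
  Spec (CommRingCat.of (invariants k p b v))

/-- The structure morphism of the quotient. -/
noncomputable def quotStr (k : Type u) [Field k] [Algebra k B] (p : ℕ) (b : Fin n → B)
    (v : Fin n → Fin r → B) : quot k p b v ⟶ Spec (CommRingCat.of k) :=
  Spec.map (CommRingCat.ofHom (algebraMap k (invariants k p b v)))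

end defs

lemma hasModel_of {k E : Type u} [Field k] [Field E] [Algebra k E]
    (h : HasSmoothProjectiveModel k E) : HasModel k E := by
  obtain ⟨N, H, h0, h1⟩ := h
  refine ⟨N, H, h0, fun i => ⟨(h1 i).1, fun x => ?_⟩⟩
  have h2 := (h1 i).2
  obtain ⟨a, b, hb, rfl⟩ := IsFractionRing.div_surjective
    (A := Algebra.adjoin k (Set.range fun j => H j / H i)) x
  exact ⟨a, a.2, b, b.2, fun h => nonZeroDivisors.ne_zero hb (Subtype.ext h),
    div_eq_mul_inv _ _⟩

lemma of_hasModel {k E : Type u} [Field k] [Field E] [Algebra k E]
    (h : HasModel k E) : HasSmoothProjectiveModel k E := by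
  obtain ⟨N, H, h0, h1⟩ := h
  refine ⟨N, H, h0, fun i => ⟨(h1 i).sm, ?_⟩⟩
  refine IsFractionRing.of_field _ _ fun x => ?_
  obtain ⟨a, ha, b, hb, -, hx⟩ := (h1 i).fr x
  exact ⟨⟨a, ha⟩, ⟨b, hb⟩, by rw [hx, div_eq_mul_inv]; rfl⟩

/-- Let `k` be a field of characteristic `p`, and let `S = Spec B` be an affine variety over `k`,
such that either `k` is perfect, `S` is a surface and its function field has a smooth projective
model (by the resolution of singularities of surfaces this is always the case; by the fourth
statement it is the case if `S` is rational), or the function field of `S` has log smooth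
projective models. Then, for all finite families of functions `b i` on `S` and of vectors `v i` of
`r` functions on `S`, the quotient of `S × A ^ r` by the group schemes with the coordinate rings
`B[θ] / (θ ^ p - b i * θ)`, which act by `z ↦ z + θ * v i`, is a variety and has a resolution of
singularities.

If `b = 1`, then the invariants are the polynomials with `f (z + v) = f (z)`. If `b = 0`, they are
the polynomials `f` with `∑ v j * ∂f/∂z j = 0`. -/
theorem result (p : ℕ) [Fact p.Prime] (k : Type u) [Field k] [CharP k p] :
    (∀ (B : Type u) [CommRing B] [IsDomain B] [Algebra k B] [Algebra.FiniteType k B],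
      ((PerfectField k ∧ Algebra.trdeg k (FractionRing B) = 2 ∧
        HasSmoothProjectiveModel k (FractionRing B)) ∨ HasLogModels k (FractionRing B)) →
      ∀ (n r : ℕ) (b : Fin n → B) (v : Fin n → Fin r → B),
        IsResolvableVariety (quotStr k p b v)) ∧
    (∀ (B : Type u) [CommRing B] [IsDomain B] [Algebra k B] (r : ℕ) (v : Fin r → B)
      (f : MvPolynomial (Fin r) B), IsInvariant p 1 v f ↔
        MvPolynomial.aeval (fun j => MvPolynomial.X j + MvPolynomial.C (v j)) f = f) ∧
    (∀ (B : Type u) [CommRing B] [IsDomain B] [Algebra k B] (r : ℕ) (v : Fin r → B)
      (f : MvPolynomial (Fin r) B), IsInvariant p 0 v f ↔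
        ∑ j, MvPolynomial.C (v j) * MvPolynomial.pderiv j f = 0) ∧
    (∀ (E : Type u) [Field E] [Algebra k E], Algebra.trdeg k E = 2 → ∀ u : Fin 2 → E,
      IntermediateField.adjoin k (Set.range u) = ⊤ → HasSmoothProjectiveModel k E) := by
  have hp : p.Prime := Fact.out
  refine ⟨?_, ?_, ?_, ?_⟩
  · intro B _ _ _ _ hB n r b v
    have hL : Pool.Agent.Run7.h945.TR.LogM k (FractionRing B) := by
      rcases hB with ⟨h1, h2, h3⟩ | h
      · exact Pool.Agent.Run7.h945.TR.logM_of_surface h2 (hasModel_of h3)
      · exact Pool.Agent.Run7.h945.TR.logM_of_logModels h
    have hBp : CharP B p := charP_of_injective_algebraMap (algebraMap k B).injective p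
    let l : List (B × (Fin r → B)) := List.ofFn fun i => (b i, v i)
    have heq : invariants k p b v = Pool.Agent.Run7.h945.TR.CI k p l := by
      ext f
      change (∀ i, IsInvariant p (b i) (v i) f) ↔
        ∀ x ∈ l, Pool.Agent.Run7.h945.TR.Inv p x.1 x.2 f
      rw [List.forall_mem_ofFn_iff]
      rfl
    have key : ∀ C : Subalgebra k (MvPolynomial (Fin r) B),
        C = Pool.Agent.Run7.h945.TR.CI k p l →
        IsResolvableVariety (X := Spec (CommRingCat.of C))
          (Spec.map (CommRingCat.ofHom (algebraMap k C))) := by
      rintro _ rfl
      have h1 := Pool.Agent.Run7.h945.TR.finiteType_CI (k := k) (p := p) l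
      exact isResolvableVariety_spec
        (Pool.Agent.Run7.h945.TR.hasResolution_CI (E := FractionRing B) hL l)
    exact key _ heq
  · intro B _ _ _ r v f
    have hBp : CharP B p := charP_of_injective_algebraMap (algebraMap k B).injective p
    exact Pool.Agent.Run7.h945.TR.inv_one_iff v f
  · intro B _ _ _ r v f
    have hBp : CharP B p := charP_of_injective_algebraMap (algebraMap k B).injective p
    exact Pool.Agent.Run7.h945.TR.inv_zero_iff v f
  · intro E _ _ h2 u hu
    exact of_hasModel (hasModel_plane h2 (fun j => (ind_of_top h2 u hu).ne_zero j) hu)

end Pool.Agent.Results.MP_b525bf_ag.SurfaceTranslations
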