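import Pool.Agent.Run7.h360.TA.Core

/-!
MP_b525bf_ag: resolution of singularities, in all dimensions and in all characteristics `p > 0`, of the
projective varieties with a torus action of complexity two, and of all their open subsets.

Let `X` be a projective variety over a perfect field `k` of characteristic `p`, of arbitrary
dimension, with a linear action of a split torus `T`, and let `F` be the field of the rational
functions on `X` which are invariant under `T`. If `F` is the function field of a smooth projective
surface then each nonempty open subscheme of `X`, invariant under `T` or not, has a resolution. (Every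
field of transcendence degree two over `k` which is finitely generated is the function field of a
smooth projective surface by the theorem of Abhyankar and Zariski; and every normal projective
variety with an action of `T` has an embedding with a linear action. So these are, up to
normalization, the projective varieties with a torus action whose general orbits have
codimension two, in all dimensions.) The theorem does not need that `X` is normal.

More generally, `F` can be any field in the class of admissible pairs `(F, P)` of the starting file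
`MP_b525bf_ag.AdmissibleTowers`, if the invariant Laurent monomials in the semi-invariant linear forms
are in `P`. So the general orbits can have arbitrary codimension. For example:

* `F` is the function field of the product of any number of surfaces, and the invariant Laurent
  monomials in the semi-invariant linear forms are products of functions on the surfaces (for
  instance torus bundles and their equivariant compactifications over such products, where the torus
  bundles are the differences of divisors on the factors);

* `F` is the function field of a threefold (for instance all projective fourfolds with an action of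
  the multiplicative group), by the operation `models` and the theorems of Cossart, Piltant, Jannsen
  and Saito;

* `F` is the function field of a variety of dimension `c` and degree at most `δ`, `P` is the set of
  the polynomials of degree at most `s` in the coordinates and of their products, and
  `(s * δ) ^ 2 ^ (c - 2) < p` (operation `family` over `surface`); here the dimension of `X`, the degree of
  `X` and the weights of the torus are not bounded.

The proof. Let `b i` be a basis of the linear forms which are semi-invariant, of weight `w i`. The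
differences of the weights generate a free group, and a basis of this group is given by Laurent
monomials `z 1, ..., z n` in the `b i / b 0`, which are algebraically independent over `F` by the
independence of the weights; `b i / b 0` is a Laurent monomial in the `z j` times an invariant
Laurent monomial (`core`). So the function field of `X` is `F (z 1, ..., z n)`. Log smooth models of
`F` for the invariant monomials give log smooth models of `F (z 1, ..., z n)` for these monomials and
the `z j` (`mod_tower`, from the starting files), and so the coordinates of `X` are boundary functions.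
The construction of a resolution of `X` and its open subsets from such a model is the one of the
starting files (`isResolvable_of_forms`, helper762). The corresponding theorem for affine varieties of
complexity two is a lemma of the starting files (helper558); local uniformization for them is
`MP_3029eb_ag.TorusComplexityTwo`.

helper360; built on the library of the starting files (helpers 558, 762, 98, 466 and their teams).
-/

set_option autoImplicit false

open AlgebraicGeometry CategoryTheory Pool.Agent.W558
  Pool.Agent.Results.MP_b525bf_ag.AdmissibleTowers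

namespace Pool.Agent.Results.MP_b525bf_ag.TorusActions

section defs

variable {k S K : Type} [Field k] [CommRing S] [Algebra k S] [Field K] [Algebra k K] {r : ℕ}

/-- The grading `ℬ` of the graded ring `S = ⨁ 𝒜 n` by weights, that is an action of the torus
`𝔾_m ^ r` on `S`, preserves the spaces `𝒜 n`: the components of a form of degree `n` of the various
weights are forms of degree `n`. So the torus acts on `X = Proj S`. -/
def IsTorusAction (𝒜 : ℕ → Submodule k S) (ℬ : (Fin r → ℤ) → Submodule k S) [GradedAlgebra ℬ] :
    Prop :=
  ∀ n, ∀ s ∈ 𝒜 n, ∀ d, (DirectSum.decompose ℬ s d : S) ∈ 𝒜 n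

/-- The field of the rational functions on `X` which are invariant under the torus: the quotients of
two forms of the same degree and of the same weight. (`ξ` is a homogeneous generic point of `X` with
values in the function field `K`.) -/
def invariantField (𝒜 : ℕ → Submodule k S) [GradedAlgebra 𝒜] (ℬ : (Fin r → ℤ) → Submodule k S)
    [GradedAlgebra ℬ] (ξ : S →ₐ[k] K) : IntermediateField k K where
  carrier := {x | ∃ n d, ∃ a ∈ 𝒜 n, ∃ b ∈ 𝒜 n, a ∈ ℬ d ∧ b ∈ ℬ d ∧ ξ b ≠ 0 ∧ x = ξ a / ξ b}
  mul_mem' := by
    rintro x y ⟨n, d, a, ha, b, hb, ha', hb', h0, rfl⟩ ⟨m, e, a2, ha2, b2, hb2, ha2', hb2', h20, rfl⟩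
    refine ⟨n + m, d + e, a * a2, SetLike.mul_mem_graded ha ha2, b * b2,
      SetLike.mul_mem_graded hb hb2, SetLike.mul_mem_graded ha' ha2',
      SetLike.mul_mem_graded hb' hb2', ?_, ?_⟩
    · rw [map_mul]; exact mul_ne_zero h0 h20
    · rw [map_mul, map_mul, div_mul_div_comm]
  add_mem' := by
    rintro x y ⟨n, d, a, ha, b, hb, ha', hb', h0, rfl⟩ ⟨m, e, a2, ha2, b2, hb2, ha2', hb2', h20, rfl⟩
    refine ⟨n + m, d + e, a * b2 + b * a2,
      add_mem (SetLike.mul_mem_graded ha hb2) (SetLike.mul_mem_graded hb ha2), b * b2,
      SetLike.mul_mem_graded hb hb2,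
      add_mem (SetLike.mul_mem_graded ha' hb2') (SetLike.mul_mem_graded hb' ha2'),
      SetLike.mul_mem_graded hb' hb2', ?_, ?_⟩
    · rw [map_mul]; exact mul_ne_zero h0 h20
    · rw [div_add_div _ _ h0 h20, map_mul, map_add, map_mul, map_mul]
  algebraMap_mem' := by
    intro c
    refine ⟨0, 0, algebraMap k S c, SetLike.algebraMap_mem_graded 𝒜 c, 1,
      SetLike.one_mem_graded 𝒜, SetLike.algebraMap_mem_graded ℬ c, SetLike.one_mem_graded ℬ, ?_, ?_⟩
    · rw [map_one]; exact one_ne_zero
    · rw [map_one, div_one, AlgHom.commutes]
  inv_mem' := by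
    rintro x ⟨n, d, a, ha, b, hb, ha', hb', h0, rfl⟩
    by_cases h : ξ a = 0
    · refine ⟨0, 0, 0, Submodule.zero_mem _, 1, SetLike.one_mem_graded 𝒜, Submodule.zero_mem _,
        SetLike.one_mem_graded ℬ, ?_, ?_⟩
      · rw [map_one]; exact one_ne_zero
      · rw [h, zero_div, inv_zero, map_zero, zero_div]
    · exact ⟨n, d, b, hb, a, ha, hb', ha', h, by rw [inv_div]⟩

/-- The set `P` contains the invariant Laurent monomials in the semi-invariant linear forms: the
products of powers `∏ (b i) ^ (e i)`, `e i` in `ℤ`, of nonzero semi-invariant forms `b i` of degree one,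
which have the degree `0` and the weight `0`. -/
def ContainsInvariantMonomials (𝒜 : ℕ → Submodule k S) [GradedAlgebra 𝒜]
    (ℬ : (Fin r → ℤ) → Submodule k S) [GradedAlgebra ℬ] (ξ : S →ₐ[k] K)
    (P : Set (invariantField 𝒜 ℬ ξ)) : Prop :=
  ∀ (m : ℕ) (b : Fin m → S) (w : Fin m → Fin r → ℤ) (e : Fin m → ℤ),
    (∀ i, b i ∈ 𝒜 1 ∧ b i ∈ ℬ (w i) ∧ b i ≠ 0) → ∑ i, e i = 0 → ∑ i, e i • w i = 0 →
    ∀ y : invariantField 𝒜 ℬ ξ, (y : K) = ∏ i, ξ (b i) ^ e i → y ∈ P

end defs

/-- Let `k` be a perfect field of characteristic `p > 0`, and let `X = Proj S` be a projective variety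
over `k`, where the graded domain `S = ⨁ 𝒜 n` is generated over `k` by its finite dimensional part
`𝒜 1 ≠ 0` of degree one; `ξ` is a homogeneous generic point of `X` with values in the function field
`K` of `X`. Let the torus `𝔾_m ^ r` act on `S` and `X`, by the grading `ℬ` of `S` by weights in `ℤ ^ r`.
Suppose that the field `F` of the rational functions on `X` which are invariant under the torus has
transcendence degree two over `k` and is the function field of a smooth projective surface; or that
there is a set `P` of elements of `F`, such that the pair `(F, P)` is in the class of admissible pairs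
of the starting file `AdmissibleTowers`, which contains the invariant Laurent monomials in the
semi-invariant linear forms. Then each nonempty open subscheme `U` of `X` has a resolution of
singularities. -/
theorem result (p : ℕ) [Fact p.Prime] (k : Type) [Field k] [PerfectField k] [CharP k p]
    (S : Type) [CommRing S] [IsDomain S] [Algebra k S] (𝒜 : ℕ → Submodule k S) [GradedAlgebra 𝒜]
    (hS : Algebra.adjoin k (𝒜 1 : Set S) = ⊤) (hS1 : 𝒜 1 ≠ ⊥) (hfg : (𝒜 1).FG)
    (K : Type) [Field K] [Algebra k K] (ξ : S →ₐ[k] K) (hξ : IsGenericPoint 𝒜 ξ)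
    (r : ℕ) (ℬ : (Fin r → ℤ) → Submodule k S) [GradedAlgebra ℬ] (hT : IsTorusAction 𝒜 ℬ)
    (hF : (Algebra.trdeg k (invariantField 𝒜 ℬ ξ) = 2 ∧ HasModel k (invariantField 𝒜 ℬ ξ)) ∨
      ∃ P : Set (invariantField 𝒜 ℬ ξ), IsAdmissible p k (invariantField 𝒜 ℬ ξ) P ∧
        ContainsInvariantMonomials 𝒜 ℬ ξ P)
    (U : (Proj 𝒜).Opens) (hU : (U : Set (Proj 𝒜)).Nonempty) :
    IsResolvableVariety (k := k) (X := U.toScheme)
      (U.ι ≫ Proj.toSpecZero 𝒜 ≫ Spec.map (CommRingCat.ofHom (algebraMap k (𝒜 0)))) := by
  classical
  obtain ⟨P, hP, hPm⟩ : ∃ P : Set (invariantField 𝒜 ℬ ξ),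
      IsAdmissible p k (invariantField 𝒜 ℬ ξ) P ∧ ContainsInvariantMonomials 𝒜 ℬ ξ P := by
    rcases hF with ⟨h1, h2⟩ | h
    · exact ⟨Set.univ, IsAdmissible.surface _ h1 h2, fun _ _ _ _ _ _ _ y _ => Set.mem_univ y⟩
    · exact h
  obtain ⟨m, b, w, i0, hb, hbw, hb0, hspan⟩ :=
    Pool.Agent.Run7.h360.TA.exists_semi (ℬ := ℬ) hfg hS1 hT
  have hx0 : ∀ i, ξ (b i) ≠ 0 := fun i h => hb0 i (hξ.injective 1 _ (hb i) h)
  obtain ⟨ξ', hξ'⟩ := Pool.Agent.Run7.h360.TA.rescale 𝒜 ξ (ξ (b i0))⁻¹
  have hc : (ξ (b i0))⁻¹ ≠ 0 := inv_ne_zero (hx0 i0)
  have hinj : ∀ n, ∀ s ∈ 𝒜 n, ξ' s = 0 → s = 0 := by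
    intro n s hs h
    rw [hξ' n s hs] at h
    exact hξ.injective n s hs ((mul_eq_zero.1 h).resolve_right (pow_ne_zero n hc))
  have hfr : ∀ z : K, ∃ n, ∃ s ∈ 𝒜 n, ∃ t ∈ 𝒜 n, ξ' t ≠ 0 ∧ z = ξ' s / ξ' t := by
    intro z
    obtain ⟨n, s, hs, t, ht, ht0, hz⟩ := hξ.fractions z
    refine ⟨n, s, hs, t, ht, ?_, ?_⟩
    · rw [hξ' n t ht]
      exact mul_ne_zero ht0 (pow_ne_zero n hc)
    · rw [hξ' n s hs, hξ' n t ht, mul_div_mul_right _ _ (pow_ne_zero n hc), hz]
  have hMod := Pool.Agent.Run7.h360.TA.core (𝒜 := 𝒜) (ℬ := ℬ) p hS ξ' hinj hfr
    (invariantField 𝒜 ℬ ξ) (by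
      intro x
      rw [Pool.Agent.Run7.h360.TA.hf_rescale hc hξ']
      constructor
      · rintro ⟨n, d, a, ha, b, hb, ha', hb', h0, rfl⟩
        exact ⟨n, d, a, ha, b, hb, by rwa [zero_add], hb', h0, rfl⟩
      · rintro ⟨n, d, a, ha, b, hb, ha', hb', h0, rfl⟩
        rw [zero_add] at ha'
        exact ⟨n, d, a, ha, b, hb, ha', hb', h0, rfl⟩)
    P (mod_of_admissible p k _ P hP) b w i0 hb hbw hb0 hspan
    (by rw [hξ' 1 _ (hb i0), pow_one, mul_inv_cancel₀ (hx0 i0)]) (by
      intro e he1 he2 y hy
      refine hPm m b w e (fun i => ⟨hb i, hbw i, hb0 i⟩) he1 he2 y ?_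
      rw [hy]
      have h1 : ∀ i, ξ' (b i) ^ e i = ξ (b i) ^ e i * ((ξ (b i0))⁻¹) ^ e i := by
        intro i
        rw [hξ' 1 _ (hb i), pow_one, mul_zpow]
      rw [Finset.prod_congr rfl fun i _ => h1 i, Finset.prod_mul_distrib]
      have h2 : ∏ i, ((ξ (b i0))⁻¹) ^ e i = ((ξ (b i0))⁻¹) ^ (∑ i, e i) := by
        have : ∀ s : Finset (Fin m), ∏ i ∈ s, ((ξ (b i0))⁻¹) ^ e i =
            ((ξ (b i0))⁻¹) ^ (∑ i ∈ s, e i) := by
          intro s
          induction s using Finset.induction_on with
          | empty => simp
          | insert a s ha ih =>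
            rw [Finset.sum_insert ha, Finset.prod_insert ha, zpow_add₀ hc, ih]
        exact this _
      rw [h2, he1, zpow_zero, mul_one])
  obtain ⟨T, I, hTf, hI, M, hFr, hM⟩ := hMod (Fin m) (fun i => ξ' (b i)) (fun i => ⟨i, rfl⟩)
    (fun i h => hb0 i (hinj 1 _ (hb i) h))
  exact Pool.Agent.N762.FP.isResolvable_of_forms 𝒜 hS hfg ξ' hinj hfr b hb (n := 0)
    (fun s hs => Submodule.span_le_restrictScalars k S (Set.range b) (hspan hs)) M hFr
    (fun i _ => hM i) hS1 U hU

end Pool.Agent.Results.MP_b525bf_ag.TorusActions
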